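import Mathlib

namespace Pool.Agent.MP_6132b6_co

/-- A simplex of the Vietoris-Rips complex `VR(Q_n; r)`: a nonempty set of points of the
hypercube `Q_n = {0,1}^n` whose pairwise Hamming distances are at most `r`. -/
def IsSimplex {n : ℕ} (r : ℕ) (S : Finset (Fin n → Bool)) : Prop :=
  S.Nonempty ∧ ∀ x ∈ S, ∀ y ∈ S, hammingDist x y ≤ r

/-- A facet: a simplex that is not properly contained in another simplex. -/
def IsFacet {n : ℕ} (r : ℕ) (S : Finset (Fin n → Bool)) : Prop :=
  IsSimplex r S ∧ ∀ T : Finset (Fin n → Bool), IsSimplex r T → S ⊆ T → T = S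

end Pool.Agent.MP_6132b6_co
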